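import Mathlib
import Pool.Agent.W282.EZ.Stm

set_option autoImplicit false

namespace Pool.Agent.W215.EZ

open Pool.Agent.W282.EZ Polynomial

variable {R : Type} [CommRing R]

/-- degree at most `d`, coefficient `c` in degree `d` -/
def L (f : R[X]) (d : ℕ) (c : R) : Prop := f.natDegree ≤ d ∧ f.coeff d = c

lemma L.mul {f g : R[X]} {d e : ℕ} {a b : R} (hf : L f d a) (hg : L g e b) :
    L (f * g) (d + e) (a * b) := by
  refine ⟨natDegree_mul_le_of_le hf.1 hg.1, ?_⟩
  rw [coeff_mul_add_eq_of_natDegree_le hf.1 hg.1, hf.2, hg.2]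

lemma L.add {f g : R[X]} {d : ℕ} {a b : R} (hf : L f d a) (hg : L g d b) :
    L (f + g) d (a + b) := by
  refine ⟨natDegree_add_le_of_degree_le hf.1 hg.1, ?_⟩
  rw [coeff_add, hf.2, hg.2]

lemma L.sub {f g : R[X]} {d : ℕ} {a b : R} (hf : L f d a) (hg : L g d b) :
    L (f - g) d (a - b) := by
  refine ⟨(natDegree_sub_le_of_le hf.1 hg.1).trans (by simp), ?_⟩
  rw [coeff_sub, hf.2, hg.2]

lemma L.sq {f : R[X]} {d : ℕ} {a : R} (hf : L f d a) : L (f ^ 2) (d + d) (a * a) := by
  rw [pow_two]
  exact hf.mul hf

lemma L.up {f : R[X]} {d e : ℕ} {a : R} (hf : L f d a) (h : d < e) : L f e 0 :=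
  ⟨hf.1.trans h.le, coeff_eq_zero_of_natDegree_lt (hf.1.trans_lt h)⟩

lemma L.cc (a : R) : L (C a) 0 a := ⟨by simp, by simp⟩

lemma L.two : L (2 : R[X]) 0 2 := by
  have := L.cc (2 : R)
  rwa [map_ofNat] at this

lemma L.four : L (4 : R[X]) 0 4 := by
  have := L.cc (4 : R)
  rwa [map_ofNat] at this

lemma L.xx : L (X : R[X]) 1 1 := ⟨natDegree_X_le, by simp⟩

lemma L.eq {f : R[X]} {d d' : ℕ} {a a' : R} (hf : L f d a) (hd : d = d') (ha : a = a') :
    L f d' a' := by
  subst hd ha; exact hf

theorem lead : S_LEAD := by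
  intro R _ A B m hm
  have key : ∀ m : ℕ, 1 ≤ m →
      L (mulXZ (Polynomial.C A) (Polynomial.C B) Polynomial.X m).1 (m ^ 2) 1 ∧
      L (mulXZ (Polynomial.C A) (Polynomial.C B) Polynomial.X m).2 (m ^ 2 - 1) ((m : R) ^ 2) := by
    intro m
    induction m using Nat.strong_induction_on with
    | _ m ih =>
      intro hm
      rcases Nat.lt_or_ge m 2 with h | h
      · have : m = 1 := by omega
        subst this
        rw [mulXZ_one]
        refine ⟨L.xx, ?_⟩
        have h1 := L.cc (1 : R)
        rw [map_one] at h1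
        exact h1.eq (by norm_num) (by norm_num)
      · rcases Nat.even_or_odd' m with ⟨k, rfl | rfl⟩
        · rw [mulXZ_even _ _ _ (by omega)]
          obtain ⟨hp, hq⟩ := ih k (by omega) (by omega)
          obtain ⟨d, hd⟩ : ∃ d, k ^ 2 = d + 1 :=
            ⟨k ^ 2 - 1, by have : 1 ≤ k ^ 2 := Nat.one_le_pow _ _ (by omega); omega⟩
          have hd2 : (2 * k) ^ 2 = 4 * (d + 1) := by rw [mul_pow, hd]; ring
          rw [hd, Nat.add_sub_cancel] at hq
          rw [hd] at hp
          rw [hd2]
          generalize (mulXZ (Polynomial.C A) (Polynomial.C B) Polynomial.X k).1 = p at hp ⊢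
          generalize (mulXZ (Polynomial.C A) (Polynomial.C B) Polynomial.X k).2 = q at hq ⊢
          constructor
          · unfold c2
            have e1 := ((hp.mul hp).sub (((L.cc A).mul (hq.mul hq)).up
              (e := d + 1 + (d + 1)) (by omega))).sq
            have e2 := ((((L.four (R := R)).mul (L.cc B)).mul (hq.mul hq)).mul
              ((hp.mul hq).add (hp.mul hq))).up (e := d + 1 + (d + 1) + (d + 1 + (d + 1))) (by omega)
            refine (e1.sub e2).eq (by ring) (by ring)
          · unfold c1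
            have e1 := ((L.two (R := R)).mul ((hp.mul hq).add (hp.mul hq))).mul
              ((hp.mul hp).add (((L.cc A).mul (hq.mul hq)).up
              (e := d + 1 + (d + 1)) (by omega)))
            have e2 := (((L.four (R := R)).mul (L.cc B)).mul (hq.mul hq).sq).up
              (e := 0 + (d + 1 + d) + (d + 1 + (d + 1))) (by omega)
            refine (e1.add e2).eq (by omega) (by push_cast; ring)
        · rw [mulXZ_odd _ _ _ (by omega)]
          obtain ⟨hp, hq⟩ := ih k (by omega) (by omega)
          obtain ⟨hp', hq'⟩ := ih (k + 1) (by omega) (by omega)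
          obtain ⟨d, hd⟩ : ∃ d, k ^ 2 = d + 1 :=
            ⟨k ^ 2 - 1, by have : 1 ≤ k ^ 2 := Nat.one_le_pow _ _ (by omega); omega⟩
          obtain ⟨d', hd'⟩ : ∃ d', (k + 1) ^ 2 = d' + 1 :=
            ⟨(k + 1) ^ 2 - 1, by have : 1 ≤ (k + 1) ^ 2 := Nat.one_le_pow _ _ (by omega); omega⟩
          have hd2 : (2 * k + 1) ^ 2 = 2 * (d + d') + 3 := by
            have : (2 * k + 1) ^ 2 = 2 * k ^ 2 + 2 * (k + 1) ^ 2 - 1 := by
              have : (2 * k + 1) ^ 2 + 1 = 2 * k ^ 2 + 2 * (k + 1) ^ 2 := by ring
              omega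
            rw [this, hd, hd']
            omega
          rw [hd, Nat.add_sub_cancel] at hq
          rw [hd] at hp
          rw [hd', Nat.add_sub_cancel] at hq'
          rw [hd'] at hp'
          rw [hd2]
          generalize (mulXZ (Polynomial.C A) (Polynomial.C B) Polynomial.X k).1 = p at hp ⊢
          generalize (mulXZ (Polynomial.C A) (Polynomial.C B) Polynomial.X k).2 = q at hq ⊢
          generalize (mulXZ (Polynomial.C A) (Polynomial.C B) Polynomial.X (k + 1)).1 = p' at hp' ⊢
          generalize (mulXZ (Polynomial.C A) (Polynomial.C B) Polynomial.X (k + 1)).2 = q' at hq' ⊢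
          have e0 : L (c0 p q p' q') (2 * (d + d') + 2) ((2 * k + 1) ^ 2 : R) := by
            unfold c0
            have := ((hp.mul hq').sub ((hp'.mul hq).eq (d' := d + 1 + d') (by omega) rfl)).sq
            refine this.eq (by ring) (by push_cast; ring)
          refine ⟨?_, ?_⟩
          · have e1 : L (c1 (C A) (C B) p q p' q') (2 * (d + d') + 3)
                (2 * ((k : R) ^ 2 + (k + 1) ^ 2)) := by
              unfold c1
              have e1 := ((L.two (R := R)).mul ((hp.mul hq').add ((hp'.mul hq).eq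
                (d' := d + 1 + d') (by omega) rfl))).mul
                ((hp.mul hp').add (((L.cc A).mul (hq.mul hq')).up
                (e := d + 1 + (d' + 1)) (by omega)))
              have e2 := (((L.four (R := R)).mul (L.cc B)).mul (hq.mul hq').sq).up
                (e := 0 + (d + 1 + d') + (d + 1 + (d' + 1))) (by omega)
              refine (e1.add e2).eq (by omega) (by push_cast; ring)
            have e2 := (L.xx (R := R)).mul e0
            refine (e1.sub (e2.eq (d' := 2 * (d + d') + 3) (by omega) rfl)).eq rfl (by ring)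
          · refine e0.eq (by omega) (by push_cast; ring)
  obtain ⟨h1, h2⟩ := key m hm
  exact ⟨h1.1, h1.2, h2.1, h2.2⟩

end Pool.Agent.W215.EZ
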